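import Mathlib
import Pool.Agent.Q132.SLin.NonLin

open Filter Topology Set Matrix

namespace Pool.Agent.Results.MP_4f3c81_gt.FiniteK

/-- A `C^k`-action of `SL(n,ℝ)` on `(ℝ^m,0)`: a continuous action in which every group element
acts by a `C^k` map fixing the origin. (The map of `g` is then a `C^k` diffeomorphism, its
inverse being the map of `g⁻¹`.) -/
structure CkAction (n m : ℕ) (k : ℕ∞) where
  /-- the map of a group element -/
  act : Matrix.SpecialLinearGroup (Fin n) ℝ →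
    EuclideanSpace ℝ (Fin m) → EuclideanSpace ℝ (Fin m)
  act_one : ∀ x, act 1 x = x
  act_mul : ∀ g h x, act (g * h) x = act g (act h x)
  continuous_act : Continuous
    fun p : Matrix.SpecialLinearGroup (Fin n) ℝ × EuclideanSpace ℝ (Fin m) => act p.1 p.2
  contDiff_act : ∀ g, ContDiff ℝ k (act g)
  act_zero : ∀ g, act g 0 = 0

/-- The derivative `ρ(g) = D(g·-)_0` at the fixed point. -/
noncomputable def CkAction.rho {n m : ℕ} {k : ℕ∞} (A : CkAction n m k)
    (g : Matrix.SpecialLinearGroup (Fin n) ℝ) :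
    EuclideanSpace ℝ (Fin m) →L[ℝ] EuclideanSpace ℝ (Fin m) := fderiv ℝ (A.act g) 0

/-- `C^k`-linearizability near `0`: there are open neighbourhoods `V ⊆ U` of `0`, a neighbourhood
`N` of the identity with `N · V ⊆ U`, and a `C^k` diffeomorphism `φ` (with inverse `φ'`) of `U`
onto the open set `φ '' U`, with `φ 0 = 0`, such that `φ (g · x) = ρ(g) (φ x)` for `g ∈ N` and
`x ∈ V`. -/
def CkAction.Linearizable {n m : ℕ} {k : ℕ∞} (A : CkAction n m k) : Prop :=
  ∃ (U V : Set (EuclideanSpace ℝ (Fin m))) (N : Set (Matrix.SpecialLinearGroup (Fin n) ℝ))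
    (φ φ' : EuclideanSpace ℝ (Fin m) → EuclideanSpace ℝ (Fin m)),
    IsOpen U ∧ IsOpen V ∧ 0 ∈ V ∧ V ⊆ U ∧ N ∈ 𝓝 1 ∧ (∀ g ∈ N, ∀ x ∈ V, A.act g x ∈ U) ∧
    ContDiffOn ℝ k φ U ∧ IsOpen (φ '' U) ∧ ContDiffOn ℝ k φ' (φ '' U) ∧
    (∀ x ∈ U, φ' (φ x) = x) ∧ φ 0 = 0 ∧
    ∀ g ∈ N, ∀ x ∈ V, φ (A.act g x) = A.rho g (φ x)

open Pool.Agent.Q132.SLin

section

variable {n m : ℕ} {k : ℕ} {T : Type} [NormedAddCommGroup T] [NormedSpace ℝ T]

/-- The model action transported to `ℝ^m`. -/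
noncomputable def model (hk : 1 ≤ k) (η : T →L[ℝ] ℝ) (v : T) (hv : η v = 0)
    (L : (X n × T) ≃L[ℝ] EuclideanSpace ℝ (Fin m)) : CkAction n m k where
  act g y := L (Am k η v g (L.symm y))
  act_one y := by rw [Am_one]; simp
  act_mul g h y := by rw [Am_mul k η v hv]; simp
  continuous_act := by
    have h := continuous_Am (n := n) hk η v
    have h1 : Continuous fun p : Matrix.SpecialLinearGroup (Fin n) ℝ ×
        EuclideanSpace ℝ (Fin m) => (p.1, L.symm p.2) :=
      continuous_fst.prodMk (L.symm.continuous.comp continuous_snd)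
    exact L.continuous.comp (Continuous.comp h h1)
  contDiff_act g := by
    have h := contDiff_Am hk η v g
    have h2 : ((k : ℕ∞) : WithTop ℕ∞) = (k : WithTop ℕ∞) := rfl
    rw [h2]
    exact L.contDiff.comp (h.comp L.symm.contDiff)
  act_zero g := by rw [map_zero, Am_zero, map_zero]

lemma rho_model (hk : 1 ≤ k) (η : T →L[ℝ] ℝ) (v : T) (hv : η v = 0)
    (L : (X n × T) ≃L[ℝ] EuclideanSpace ℝ (Fin m)) (g : Matrix.SpecialLinearGroup (Fin n) ℝ)
    (y : EuclideanSpace ℝ (Fin m)) :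
    (model hk η v hv L).rho g y = L (gT g (L.symm y)) := by
  have h1 : HasFDerivAt (Am k η v g) (gT g) (L.symm (0 : EuclideanSpace ℝ (Fin m))) := by
    rw [map_zero]; exact hasFDerivAt_Am hk η v g
  have h2 := L.hasFDerivAt.comp (0 : EuclideanSpace ℝ (Fin m))
    (h1.comp (0 : EuclideanSpace ℝ (Fin m)) L.symm.hasFDerivAt)
  have h3 : (model hk η v hv L).rho g = _ := h2.fderiv
  rw [h3]
  rfl

theorem not_linearizable_model [FiniteDimensional ℝ T] (hn : 2 ≤ n) (hk : 1 ≤ k)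
    (η : T →L[ℝ] ℝ) (v e : T) (hv : η v = 0) (hv0 : v ≠ 0) (he : η e = 1)
    (L : (X n × T) ≃L[ℝ] EuclideanSpace ℝ (Fin m)) :
    ¬ (model hk η v hv L).Linearizable := by
  rintro ⟨U, V, N, φ, φ', hU, hV, h0V, hVU, hN, -, hφ, hφU, hφ', hinv, hφ0, heq⟩
  have hcast : ((k : ℕ∞) : WithTop ℕ∞) = (k : WithTop ℕ∞) := rfl
  rw [hcast] at hφ hφ'
  have hk0 : ((k : ℕ) : WithTop ℕ∞) ≠ 0 := by
    exact_mod_cast (show k ≠ 0 by omega)
  have h0U : (0 : EuclideanSpace ℝ (Fin m)) ∈ U := hVU h0V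
  have hφc : ContDiffAt ℝ k φ 0 := hφ.contDiffAt (hU.mem_nhds h0U)
  have h0im : (0 : EuclideanSpace ℝ (Fin m)) ∈ φ '' U := ⟨0, h0U, hφ0⟩
  have hφ'c : ContDiffAt ℝ k φ' 0 := hφ'.contDiffAt (hφU.mem_nhds h0im)
  -- the derivative of `φ` is injective, hence surjective
  have hsurj0 : Function.Surjective (fderiv ℝ φ 0) := by
    have h1 : HasFDerivAt φ (fderiv ℝ φ 0) 0 := (hφc.differentiableAt hk0).hasFDerivAt
    have h2 : HasFDerivAt φ' (fderiv ℝ φ' 0) (φ 0) := by
      rw [hφ0]; exact (hφ'c.differentiableAt hk0).hasFDerivAt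
    have h3 := h2.comp 0 h1
    have h4 : HasFDerivAt (φ' ∘ φ) (ContinuousLinearMap.id ℝ _) 0 := by
      refine (hasFDerivAt_id _).congr_of_eventuallyEq ?_
      filter_upwards [hU.mem_nhds h0U] with x hx
      exact hinv x hx
    have h5 := h3.unique h4
    have hinj : Function.Injective (fderiv ℝ φ 0) := by
      intro a b hab
      have h6 := congrArg (fun M : EuclideanSpace ℝ (Fin m) →L[ℝ] EuclideanSpace ℝ (Fin m) => M a) h5
      have h7 := congrArg (fun M : EuclideanSpace ℝ (Fin m) →L[ℝ] EuclideanSpace ℝ (Fin m) => M b) h5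
      simp only [ContinuousLinearMap.comp_apply, ContinuousLinearMap.id_apply] at h6 h7
      rw [← h6, ← h7, hab]
    exact (LinearMap.injective_iff_surjective (f := (fderiv ℝ φ 0 :
      EuclideanSpace ℝ (Fin m) →ₗ[ℝ] EuclideanSpace ℝ (Fin m)))).1 hinj
  -- transport to the model space
  set φm : X n × T → X n × T := fun p => L.symm (φ (L p)) with hφm
  have hL0 : L (0 : X n × T) = 0 := map_zero L
  have hφL : ContDiffAt ℝ k φ (L (0 : X n × T)) := by rw [hL0]; exact hφc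
  have hφmc : ContDiffAt ℝ k φm 0 :=
    L.symm.contDiff.contDiffAt.comp (0 : X n × T)
      (hφL.comp (0 : X n × T) L.contDiff.contDiffAt)
  have hφm0 : φm 0 = 0 := by simp only [hφm, hL0, hφ0, map_zero]
  have hfd : HasFDerivAt φm ((L.symm : _ →L[ℝ] X n × T).comp
      ((fderiv ℝ φ 0).comp (L : X n × T →L[ℝ] _))) 0 := by
    have h1 : HasFDerivAt φ (fderiv ℝ φ 0) (L (0 : X n × T)) := by
      rw [hL0]; exact (hφc.differentiableAt hk0).hasFDerivAt
    exact L.symm.hasFDerivAt.comp (0 : X n × T) (h1.comp (0 : X n × T) L.hasFDerivAt)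
  have hsurj : Function.Surjective (fderiv ℝ φm 0) := by
    rw [hfd.fderiv]
    intro q
    obtain ⟨y, hy⟩ := hsurj0 (L q)
    refine ⟨L.symm y, ?_⟩
    simp [hy]
  have hVm : L ⁻¹' V ∈ 𝓝 (0 : X n × T) := by
    apply L.continuous.continuousAt.preimage_mem_nhds
    rw [hL0]
    exact hV.mem_nhds h0V
  refine core hn hk η v e hv hv0 he hφmc hφm0 hsurj hN hVm ?_
  intro g hg p hp
  have h1 := heq g hg (L p) hp
  rw [rho_model] at h1
  have h2 : (model hk η v hv L).act g (L p) = L (Am k η v g p) := by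
    change L (Am k η v g (L.symm (L p))) = _
    rw [L.symm_apply_apply]
  rw [h2] at h1
  have h3 : φm (Am k η v g p) = gT g (φm p) := by
    simp only [hφm]
    rw [h1, L.symm_apply_apply]
  rw [h3]
  rfl

end

/-- For all `n ≥ 2`, `m ≥ n + 2` and finite `k ≥ 1` there is a `C^k`-action of `SL(n,ℝ)` on
`(ℝ^m,0)` which is not `C^k`-linearizable. -/
theorem result (n m k : ℕ) (hn : 2 ≤ n) (hm : n + 2 ≤ m) (hk : 1 ≤ k) :
    ∃ A : CkAction n m k, ¬ A.Linearizable := by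
  obtain ⟨p, rfl⟩ : ∃ p, m = n + (p + 2) := ⟨m - n - 2, by omega⟩
  let η : EuclideanSpace ℝ (Fin (p + 2)) →L[ℝ] ℝ := EuclideanSpace.proj 0
  let v : EuclideanSpace ℝ (Fin (p + 2)) := EuclideanSpace.single 1 1
  let e : EuclideanSpace ℝ (Fin (p + 2)) := EuclideanSpace.single 0 1
  have hv : η v = 0 := by simp [η, v]
  have hv0 : v ≠ 0 := by
    intro h
    have := congrArg (fun w : EuclideanSpace ℝ (Fin (p + 2)) => w 1) h
    simp [v] at this
  have he : η e = 1 := by simp [η, e]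
  have hdim : Module.finrank ℝ (X n × EuclideanSpace ℝ (Fin (p + 2))) =
      Module.finrank ℝ (EuclideanSpace ℝ (Fin (n + (p + 2)))) := by
    simp
  let L : (X n × EuclideanSpace ℝ (Fin (p + 2))) ≃L[ℝ] EuclideanSpace ℝ (Fin (n + (p + 2))) :=
    ContinuousLinearEquiv.ofFinrankEq hdim
  exact ⟨model hk η v hv L, not_linearizable_model hn hk η v e hv hv0 he L⟩

end Pool.Agent.Results.MP_4f3c81_gt.FiniteK
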